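import Pool.Agent.Run7.h648.Nondeg
import Pool.Agent.H510R2.Div

set_option autoImplicit false

/-!
# The differences of double quadruples

`NN X` is a finite set of natural numbers, of size `O(X^(63/64+ε))`, containing every `N ≤ X`
which is `|n₁ - n₂|` for a quadruple with the two properties `D(n₁)`, `D(n₂)`.
-/

namespace Run7.h648.FewDiff

open Polynomial

/-- Common refinement of several factorisations of `N`: a large `P` dividing one of the two
factors in each of them. -/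
lemma refine_list (L : List (ℕ × ℕ)) (N : ℕ) (h : ∀ f ∈ L, f.1 * f.2 = N) :
    ∃ P : ℕ, P ∣ N ∧ N ≤ P ^ (2 ^ L.length) ∧ ∀ f ∈ L, P ∣ f.1 ∨ P ∣ f.2 := by
  induction L with
  | nil => exact ⟨N, dvd_rfl, by simp, by simp⟩
  | cons f L ih =>
    obtain ⟨P, hPN, hP, hPL⟩ := ih fun g hg => h g (List.mem_cons_of_mem _ hg)
    have hf := h f List.mem_cons_self
    have hPf : P ∣ f.1 * f.2 := hf ▸ hPN
    obtain ⟨g, k, hg, hk, hgk⟩ : ∃ g k, g ∣ f.1 ∧ k ∣ f.2 ∧ P = g * k := by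
      obtain ⟨g, k, hg, hk, hgk⟩ := exists_dvd_and_dvd_of_dvd_mul hPf
      exact ⟨g, k, hg, hk, hgk⟩
    have hlen : 2 ^ (f :: L).length = 2 * 2 ^ L.length := by
      rw [List.length_cons, pow_succ]; ring
    have key : ∀ Q R : ℕ, Q ≤ R → P = Q * R → N ≤ R ^ (2 ^ (f :: L).length) := by
      intro Q R hQR hPQR
      rw [hlen, pow_mul]
      refine hP.trans (Nat.pow_le_pow_left ?_ _)
      rw [hPQR, sq]
      exact Nat.mul_le_mul_right _ hQR
    rcases le_total g k with hle | hle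
    · refine ⟨k, (Dvd.intro_left g hgk.symm).trans hPN, key g k hle hgk, ?_⟩
      intro f' hf'
      rcases List.mem_cons.1 hf' with rfl | hf'
      · right; exact hk
      · rcases hPL f' hf' with h1 | h1
        · left; exact (Dvd.intro_left g hgk.symm).trans h1
        · right; exact (Dvd.intro_left g hgk.symm).trans h1
    · refine ⟨g, (Dvd.intro k hgk.symm).trans hPN, key k g hle (by rw [hgk]; ring), ?_⟩
      intro f' hf'
      rcases List.mem_cons.1 hf' with rfl | hf'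
      · left; exact hg
      · rcases hPL f' hf' with h1 | h1
        · left; exact (Dvd.intro k hgk.symm).trans h1
        · right; exact (Dvd.intro k hgk.symm).trans h1

/-- The collinearity determinant for values on the six edges; edges `2i, 2i+1` form the `i`-th
perfect matching. -/
def det (g : Fin 6 → ℤ) : ℤ :=
  (g 0 * g 1 - g 2 * g 3) * ((g 0 + g 1) - (g 4 + g 5))
    - (g 0 * g 1 - g 4 * g 5) * ((g 0 + g 1) - (g 2 + g 3))

def c3 (R : Fin 6 → ℤ) : ℤ :=
  (R 0 * R 1 - R 2 * R 3) * ((R 0 + R 1) - (R 4 + R 5))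
    - (R 0 * R 1 - R 4 * R 5) * ((R 0 + R 1) - (R 2 + R 3))

def c2 (R S : Fin 6 → ℤ) : ℤ :=
  (R 0 * R 1 - R 2 * R 3) * ((S 0 + S 1) - (S 4 + S 5))
    - (R 0 * R 1 - R 4 * R 5) * ((S 0 + S 1) - (S 2 + S 3))
    + ((R 0 * S 1 + R 1 * S 0) - (R 2 * S 3 + R 3 * S 2)) * ((R 0 + R 1) - (R 4 + R 5))
    - ((R 0 * S 1 + R 1 * S 0) - (R 4 * S 5 + R 5 * S 4)) * ((R 0 + R 1) - (R 2 + R 3))

def c1 (R S : Fin 6 → ℤ) : ℤ :=
  ((R 0 * S 1 + R 1 * S 0) - (R 2 * S 3 + R 3 * S 2)) * ((S 0 + S 1) - (S 4 + S 5))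
    - ((R 0 * S 1 + R 1 * S 0) - (R 4 * S 5 + R 5 * S 4)) * ((S 0 + S 1) - (S 2 + S 3))
    + (S 0 * S 1 - S 2 * S 3) * ((R 0 + R 1) - (R 4 + R 5))
    - (S 0 * S 1 - S 4 * S 5) * ((R 0 + R 1) - (R 2 + R 3))

def c0 (S : Fin 6 → ℤ) : ℤ :=
  (S 0 * S 1 - S 2 * S 3) * ((S 0 + S 1) - (S 4 + S 5))
    - (S 0 * S 1 - S 4 * S 5) * ((S 0 + S 1) - (S 2 + S 3))

/-- The cubic polynomial. -/
noncomputable def cub (R S : Fin 6 → ℤ) : ℤ[X] :=
  C (c3 R) * X ^ 3 + C (c2 R S) * X ^ 2 + C (c1 R S) * X + C (c0 S)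

lemma cub_eval (R S : Fin 6 → ℤ) (T : ℤ) :
    (cub R S).eval T = det fun k => R k * T + S k := by
  simp only [cub, eval_add, eval_mul, eval_C, eval_pow, eval_X, det, c3, c2, c1, c0]
  ring

lemma det_zero (a b c d s : ℤ) (g : Fin 6 → ℤ)
    (h0 : g 0 = 4 * (a * b) + s) (h1 : g 1 = 4 * (c * d) + s)
    (h2 : g 2 = 4 * (a * c) + s) (h3 : g 3 = 4 * (b * d) + s)
    (h4 : g 4 = 4 * (a * d) + s) (h5 : g 5 = 4 * (b * c) + s) : det g = 0 := by
  rw [det, h0, h1, h2, h3, h4, h5]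
  ring

lemma cub_ne_zero (R S : Fin 6 → ℤ) (w : ℤ) (hR : ∀ k, 0 < R k)
    (hw : 0 < w) (hRS : ∀ k, R k * S k = w)
    (a02 : R 0 ≠ R 2) (a03 : R 0 ≠ R 3) (a04 : R 0 ≠ R 4) (a05 : R 0 ≠ R 5)
    (a12 : R 1 ≠ R 2) (a13 : R 1 ≠ R 3)
    (a24 : R 2 ≠ R 4) (a25 : R 2 ≠ R 5) : cub R S ≠ 0 := by
  intro hcub
  have e3 : c3 R = 0 := by
    have := congrArg (fun p => Polynomial.coeff p 3) hcub
    simpa only [cub, coeff_add, coeff_C_mul, coeff_X_pow, coeff_X, coeff_C, coeff_zero,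
      Nat.reduceEqDiff, if_true, if_false, mul_one, mul_zero, add_zero, zero_add,
      OfNat.ofNat_ne_zero, OfNat.ofNat_ne_one, OfNat.one_ne_ofNat, one_ne_zero] using this
  have e2 : c2 R S = 0 := by
    have := congrArg (fun p => Polynomial.coeff p 2) hcub
    simpa only [cub, coeff_add, coeff_C_mul, coeff_X_pow, coeff_X, coeff_C, coeff_zero,
      Nat.reduceEqDiff, if_true, if_false, mul_one, mul_zero, add_zero, zero_add,
      OfNat.ofNat_ne_zero, OfNat.ofNat_ne_one, OfNat.one_ne_ofNat, one_ne_zero] using this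
  have e1 : c1 R S = 0 := by
    have := congrArg (fun p => Polynomial.coeff p 1) hcub
    simpa only [cub, coeff_add, coeff_C_mul, coeff_X_pow, coeff_X, coeff_C, coeff_zero,
      Nat.reduceEqDiff, if_true, if_false, mul_one, mul_zero, add_zero, zero_add,
      OfNat.ofNat_ne_zero, OfNat.ofNat_ne_one, OfNat.one_ne_ofNat, one_ne_zero] using this
  -- pass to the reals
  have hRr : ∀ k, (0 : ℝ) < (R k : ℝ) := fun k => by exact_mod_cast hR k
  have hwr : (0 : ℝ) < (w : ℝ) := by exact_mod_cast hw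
  have hSr : ∀ k, (S k : ℝ) = w / R k := by
    intro k
    have h := hRr k
    have h2 : (R k : ℝ) * S k = w := by exact_mod_cast hRS k
    rw [eq_div_iff h.ne']
    linarith
  have E3 : ((c3 R : ℤ) : ℝ) = 0 := by rw [e3]; simp
  have E2 : ((c2 R S : ℤ) : ℝ) = 0 := by rw [e2]; simp
  have E1 : ((c1 R S : ℤ) : ℝ) = 0 := by rw [e1]; simp
  simp only [c3, c2, c1] at E3 E2 E1
  push_cast at E3 E2 E1
  simp only [hSr] at E2 E1
  have r0 := hRr 0
  have r1 := hRr 1
  have r2 := hRr 2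
  have r3 := hRr 3
  have r4 := hRr 4
  have r5 := hRr 5
  have b02 : (R 0 : ℝ) ≠ R 2 := by exact_mod_cast a02
  have b03 : (R 0 : ℝ) ≠ R 3 := by exact_mod_cast a03
  have b04 : (R 0 : ℝ) ≠ R 4 := by exact_mod_cast a04
  have b05 : (R 0 : ℝ) ≠ R 5 := by exact_mod_cast a05
  have b12 : (R 1 : ℝ) ≠ R 2 := by exact_mod_cast a12
  have b13 : (R 1 : ℝ) ≠ R 3 := by exact_mod_cast a13
  have b24 : (R 2 : ℝ) ≠ R 4 := by exact_mod_cast a24
  have b25 : (R 2 : ℝ) ≠ R 5 := by exact_mod_cast a25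
  generalize (R 0 : ℝ) = A at *
  generalize (R 1 : ℝ) = A' at *
  generalize (R 2 : ℝ) = B at *
  generalize (R 3 : ℝ) = B' at *
  generalize (R 4 : ℝ) = D at *
  generalize (R 5 : ℝ) = D' at *
  have s1 : (w : ℝ) / A + w / A' = w * ((A + A') / (A * A')) := by field_simp; ring
  have s2 : (w : ℝ) / B + w / B' = w * ((B + B') / (B * B')) := by field_simp; ring
  have s3 : (w : ℝ) / D + w / D' = w * ((D + D') / (D * D')) := by field_simp; ring
  have t1 : A * (w / A') + A' * (w / A) = w * ((A + A') ^ 2 / (A * A') - 2) := by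
    field_simp; ring
  have t2 : B * (w / B') + B' * (w / B) = w * ((B + B') ^ 2 / (B * B') - 2) := by
    field_simp; ring
  have t3 : D * (w / D') + D' * (w / D) = w * ((D + D') ^ 2 / (D * D') - 2) := by
    field_simp; ring
  have u1 : (w : ℝ) / A * (w / A') = w ^ 2 * (1 / (A * A')) := by field_simp
  have u2 : (w : ℝ) / B * (w / B') = w ^ 2 * (1 / (B * B')) := by field_simp
  have u3 : (w : ℝ) / D * (w / D') = w ^ 2 * (1 / (D * D')) := by field_simp
  rw [s1, s2, s3, t1, t2, t3] at E2 E1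
  rw [u1, u2, u3] at E1
  have F3 : (A * A' - B * B') * ((A + A') - (D + D'))
      = (A * A' - D * D') * ((A + A') - (B + B')) := by linarith
  have F2 := mul_left_cancel₀ (a := (w : ℝ)) (b := _) (c := 0) hwr.ne'
    (show (w : ℝ) * ((A * A' - B * B') * ((A + A') / (A * A') - (D + D') / (D * D'))
      - (A * A' - D * D') * ((A + A') / (A * A') - (B + B') / (B * B'))
      + ((A + A') ^ 2 / (A * A') - (B + B') ^ 2 / (B * B')) * ((A + A') - (D + D'))
      - ((A + A') ^ 2 / (A * A') - (D + D') ^ 2 / (D * D')) * ((A + A') - (B + B')))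
      = w * 0 by linear_combination E2)
  have F1 := mul_left_cancel₀ (a := (w : ℝ) ^ 2) (b := _) (c := 0) (pow_ne_zero 2 hwr.ne')
    (show (w : ℝ) ^ 2 * (((A + A') ^ 2 / (A * A') - (B + B') ^ 2 / (B * B'))
        * ((A + A') / (A * A') - (D + D') / (D * D'))
      - ((A + A') ^ 2 / (A * A') - (D + D') ^ 2 / (D * D'))
        * ((A + A') / (A * A') - (B + B') / (B * B'))
      + (1 / (A * A') - 1 / (B * B')) * ((A + A') - (D + D'))
      - (1 / (A * A') - 1 / (D * D')) * ((A + A') - (B + B')))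
      = w ^ 2 * 0 by linear_combination E1)
  rcases Run7.h648.Nondeg.core (A * A') (B * B') (D * D') (A + A') (B + B') (D + D')
    (by positivity) (by positivity) (by positivity) (by positivity) F3 F2 F1 with
    ⟨h1, h2⟩ | ⟨h1, h2⟩ | ⟨h1, h2⟩ | ⟨l, hl, h1, h2, h3⟩
  · rcases Run7.h648.Nondeg.pair_eq A A' B B' h1 h2 with h | h
    · exact b02 h
    · exact b03 h
  · rcases Run7.h648.Nondeg.pair_eq A A' D D' h1 h2 with h | h
    · exact b04 h
    · exact b05 h
  · rcases Run7.h648.Nondeg.pair_eq B B' D D' h1 h2 with h | h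
    · exact b24 h
    · exact b25 h
  · have q : ∀ u v : ℝ, u + v = l * (u * v) + 1 / l → u = 1 / l ∨ v = 1 / l := by
      intro u v huv
      have : (l * u - 1) * (l * v - 1) = 0 := by
        have h4 : l * (u + v) = l * (l * (u * v)) + 1 := by
          rw [huv]; field_simp
        linarith
      rcases mul_eq_zero.1 this with h | h
      · left; field_simp; linarith
      · right; field_simp; linarith
    rcases q A A' h1 with h | h <;> rcases q B B' h2 with h' | h'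
    · exact b02 (h.trans h'.symm)
    · exact b03 (h.trans h'.symm)
    · exact b12 (h.trans h'.symm)
    · exact b13 (h.trans h'.symm)

/-- The candidates `N = M P` for given `M` and `r`. -/
noncomputable def Nset (M : ℕ) (r : Fin 6 → ℕ) : Finset ℕ :=
  ((cub (fun k => (r k : ℤ) ^ 2) (fun k => ((M / r k : ℕ) : ℤ) ^ 2)).roots.toFinset).image
    fun T => M * Nat.sqrt T.toNat

lemma Nset_card (M : ℕ) (r : Fin 6 → ℕ) : (Nset M r).card ≤ 3 := by
  unfold Nset
  refine Finset.card_image_le.trans ((Multiset.toFinset_card_le _).trans ?_)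
  refine (Polynomial.card_roots' _).trans ?_
  unfold cub
  exact natDegree_cubic_le

/-- The set of candidates up to `X`. -/
noncomputable def NN (X : ℕ) : Finset ℕ :=
  ((Finset.Icc 1 X).filter fun M => M ^ 64 ≤ X ^ 63).biUnion fun M =>
    (Fintype.piFinset fun _ : Fin 6 => M.divisors).biUnion fun r => Nset M r

lemma G_form (N d P : ℕ) (hN : N ≠ 0) (hd : d ∣ N) (hP : P ∣ N) (h : P ∣ d ∨ P ∣ N / d) :
    ∃ r : ℕ, r ∣ N / P ∧
      (d : ℤ) ^ 2 + ((N / d : ℕ) : ℤ) ^ 2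
        = (r : ℤ) ^ 2 * (P : ℤ) ^ 2 + (((N / P) / r : ℕ) : ℤ) ^ 2 := by
  obtain ⟨d', hd'⟩ := hd
  obtain ⟨M, hM⟩ := hP
  have hd0 : 0 < d := Nat.pos_of_ne_zero fun h0 => hN (by rw [hd', h0, zero_mul])
  have hd'0 : 0 < d' := Nat.pos_of_ne_zero fun h0 => hN (by rw [hd', h0, mul_zero])
  have hP0 : 0 < P := Nat.pos_of_ne_zero fun h0 => hN (by rw [hM, h0, zero_mul])
  have e1 : N / d = d' := by rw [hd']; exact Nat.mul_div_cancel_left _ hd0
  have e2 : N / P = M := by rw [hM]; exact Nat.mul_div_cancel_left _ hP0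
  rw [e1] at h ⊢
  rw [e2]
  rcases h with ⟨r, hr⟩ | ⟨r, hr⟩
  · have hr0 : 0 < r := Nat.pos_of_ne_zero fun h0 => by rw [h0, mul_zero] at hr; omega
    have hMr : M = r * d' := by
      have : P * M = P * (r * d') := by rw [← hM, hd', hr]; ring
      exact Nat.eq_of_mul_eq_mul_left hP0 this
    refine ⟨r, ⟨d', hMr⟩, ?_⟩
    have e3 : M / r = d' := by rw [hMr]; exact Nat.mul_div_cancel_left _ hr0
    rw [e3, hr]
    push_cast
    ring
  · have hr0 : 0 < r := Nat.pos_of_ne_zero fun h0 => by rw [h0, mul_zero] at hr; omega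
    have hMr : M = r * d := by
      have : P * M = P * (r * d) := by rw [← hM, hd', hr]; ring
      exact Nat.eq_of_mul_eq_mul_left hP0 this
    refine ⟨r, ⟨d, hMr⟩, ?_⟩
    have e3 : M / r = d := by rw [hMr]; exact Nat.mul_div_cancel_left _ hr0
    rw [e3, hr]
    push_cast
    ring

/-- Membership: the data of a double quadruple forces `N ∈ NN X`. -/
lemma mem_NN (X N : ℕ) (hN : N ≠ 0) (hNX : N ≤ X) (a b c d s : ℤ) (ha : a ≠ 0) (hb : b ≠ 0)
    (hc : c ≠ 0) (hd : d ≠ 0) (hab : a ≠ b) (hac : a ≠ c) (had : a ≠ d) (hbc : b ≠ c)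
    (hbd : b ≠ d) (hcd : c ≠ d) (δ : Fin 6 → ℕ) (hδ : ∀ k, δ k ∣ N)
    (h0 : (δ 0 : ℤ) ^ 2 + ((N / δ 0 : ℕ) : ℤ) ^ 2 = 4 * (a * b) + s)
    (h1 : (δ 1 : ℤ) ^ 2 + ((N / δ 1 : ℕ) : ℤ) ^ 2 = 4 * (c * d) + s)
    (h2 : (δ 2 : ℤ) ^ 2 + ((N / δ 2 : ℕ) : ℤ) ^ 2 = 4 * (a * c) + s)
    (h3 : (δ 3 : ℤ) ^ 2 + ((N / δ 3 : ℕ) : ℤ) ^ 2 = 4 * (b * d) + s)
    (h4 : (δ 4 : ℤ) ^ 2 + ((N / δ 4 : ℕ) : ℤ) ^ 2 = 4 * (a * d) + s)
    (h5 : (δ 5 : ℤ) ^ 2 + ((N / δ 5 : ℕ) : ℤ) ^ 2 = 4 * (b * c) + s) : N ∈ NN X := by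
  classical
  obtain ⟨P, hPN, hPbig, hPdiv⟩ := refine_list
    (List.ofFn fun k : Fin 6 => (δ k, N / δ k)) N (by
      intro f hf
      rw [List.mem_ofFn] at hf
      obtain ⟨k, rfl⟩ := hf
      exact Nat.mul_div_cancel' (hδ k))
  rw [List.length_ofFn] at hPbig
  have hPdiv' : ∀ k, P ∣ δ k ∨ P ∣ N / δ k := fun k =>
    hPdiv (δ k, N / δ k) (by rw [List.mem_ofFn]; exact ⟨k, rfl⟩)
  choose r hrM hr using fun k => G_form N (δ k) P hN (hδ k) hPN (hPdiv' k)
  obtain ⟨M, hM⟩ := hPN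
  have hP0 : 0 < P := Nat.pos_of_ne_zero fun h => hN (by rw [hM, h, zero_mul])
  have hM0 : 0 < M := Nat.pos_of_ne_zero fun h => hN (by rw [hM, h, mul_zero])
  have e2 : N / P = M := by rw [hM]; exact Nat.mul_div_cancel_left _ hP0
  rw [e2] at hrM hr
  have hr0 : ∀ k, 0 < r k := fun k => Nat.pos_of_dvd_of_pos (hrM k) hM0
  set R : Fin 6 → ℤ := fun k => (r k : ℤ) ^ 2 with hR
  set S : Fin 6 → ℤ := fun k => ((M / r k : ℕ) : ℤ) ^ 2 with hS
  have hG : ∀ k, (δ k : ℤ) ^ 2 + ((N / δ k : ℕ) : ℤ) ^ 2 = R k * (P : ℤ) ^ 2 + S k :=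
    fun k => hr k
  have hRS : ∀ k, R k * S k = (M : ℤ) ^ 2 := by
    intro k
    have h6 : r k * (M / r k) = M := Nat.mul_div_cancel' (hrM k)
    simp only [hR, hS]
    rw [← mul_pow, ← Nat.cast_mul, h6]
  have hRinj : ∀ k l, R k = R l → R k * (P : ℤ) ^ 2 + S k = R l * (P : ℤ) ^ 2 + S l := by
    intro k l hkl
    have h6 : (r k : ℤ) = r l := by
      have h7 : ((r k : ℤ)) ^ 2 = (r l : ℤ) ^ 2 := hkl
      exact (pow_left_inj₀ (by positivity) (by positivity) (by norm_num)).1 h7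
    have h8 : r k = r l := by exact_mod_cast h6
    simp only [hR, hS, h8]
  have hdet : det (fun k => R k * (P : ℤ) ^ 2 + S k) = 0 := by
    apply det_zero a b c d s
    · rw [← h0]; exact (hG 0).symm
    · rw [← h1]; exact (hG 1).symm
    · rw [← h2]; exact (hG 2).symm
    · rw [← h3]; exact (hG 3).symm
    · rw [← h4]; exact (hG 4).symm
    · rw [← h5]; exact (hG 5).symm
  have hroot : (cub R S).IsRoot ((P : ℤ) ^ 2) := by
    rw [IsRoot.def, cub_eval]
    exact hdet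
  have g0 := (hG 0).symm.trans h0
  have g1 := (hG 1).symm.trans h1
  have g2 := (hG 2).symm.trans h2
  have g3 := (hG 3).symm.trans h3
  have g4 := (hG 4).symm.trans h4
  have g5 := (hG 5).symm.trans h5
  have cancel : ∀ x y z : ℤ, x ≠ 0 → y ≠ z → 4 * (x * y) + s = 4 * (x * z) + s → False := by
    intro x y z hx hyz h
    have : x * (y - z) = 0 := by linarith
    rcases mul_eq_zero.1 this with h' | h'
    · exact hx h'
    · exact hyz (by linarith)
  have hne : cub R S ≠ 0 := by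
    apply cub_ne_zero R S ((M : ℤ) ^ 2) (fun k => by
      have := hr0 k
      simp only [hR]
      positivity) (by positivity) hRS
    · intro h
      have h6 := hRinj 0 2 h
      rw [g0, g2] at h6
      exact cancel a b c ha hbc h6
    · intro h
      have h6 := hRinj 0 3 h
      rw [g0, g3] at h6
      exact cancel b a d hb had (by linarith)
    · intro h
      have h6 := hRinj 0 4 h
      rw [g0, g4] at h6
      exact cancel a b d ha hbd h6
    · intro h
      have h6 := hRinj 0 5 h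
      rw [g0, g5] at h6
      exact cancel b a c hb hac (by linarith)
    · intro h
      have h6 := hRinj 1 2 h
      rw [g1, g2] at h6
      exact cancel c d a hc (Ne.symm had) (by linarith)
    · intro h
      have h6 := hRinj 1 3 h
      rw [g1, g3] at h6
      exact cancel d c b hd (Ne.symm hbc) (by linarith)
    · intro h
      have h6 := hRinj 2 4 h
      rw [g2, g4] at h6
      exact cancel a c d ha hcd h6
    · intro h
      have h6 := hRinj 2 5 h
      rw [g2, g5] at h6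
      exact cancel c a b hc hab (by linarith)
  have hMX : M ^ 64 ≤ X ^ 63 := by
    have h6 : M ^ 64 * N ≤ N ^ 64 := by
      calc M ^ 64 * N ≤ M ^ 64 * P ^ 64 := Nat.mul_le_mul_left _ hPbig
        _ = N ^ 64 := by rw [hM]; ring
    have h7 : M ^ 64 * N ≤ N ^ 63 * N := by
      calc M ^ 64 * N ≤ N ^ 64 := h6
        _ = N ^ 63 * N := by ring
    have h8 : M ^ 64 ≤ N ^ 63 := Nat.le_of_mul_le_mul_right h7 (Nat.pos_of_ne_zero hN)
    exact h8.trans (Nat.pow_le_pow_left hNX _)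
  have hMleX : M ≤ X := by
    have : M ≤ N := by rw [hM]; exact Nat.le_mul_of_pos_left _ hP0
    exact this.trans hNX
  rw [NN, Finset.mem_biUnion]
  refine ⟨M, ?_, ?_⟩
  · rw [Finset.mem_filter, Finset.mem_Icc]
    exact ⟨⟨hM0, hMleX⟩, hMX⟩
  · rw [Finset.mem_biUnion]
    refine ⟨r, ?_, ?_⟩
    · rw [Fintype.mem_piFinset]
      exact fun k => Nat.mem_divisors.2 ⟨hrM k, hM0.ne'⟩
    · rw [Nset, Finset.mem_image]
      refine ⟨(P : ℤ) ^ 2, ?_, ?_⟩
      · rw [Multiset.mem_toFinset, mem_roots hne]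
        exact hroot
      · have : ((P : ℤ) ^ 2).toNat = P * P := by
          have h9 : ((P : ℤ) ^ 2) = ((P * P : ℕ) : ℤ) := by push_cast; ring
          rw [h9, Int.toNat_natCast]
        rw [this, Nat.sqrt_eq, hM]
        ring

end Run7.h648.FewDiff
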