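import Mathlib

set_option autoImplicit false

/-!
# Non-degeneracy of the cubic attached to six factorisations

For six positive numbers `R` (two for each of the three perfect matchings of `K₄`) and `w > 0` we
look at `G(T) = R T + w / R`. The condition that the three points `(G + G', G G')` (one for each
matching) are collinear is a cubic equation in `T`; we show that it is not an identity as soon
as adjacent edges carry different `R`.
-/

namespace Run7.h648.Nondeg

/-- If the elementary symmetric functions agree, the pairs agree in one entry. -/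
lemma pair_eq (A A' B B' : ℝ) (h1 : A * A' = B * B') (h2 : A + A' = B + B') :
    A = B ∨ A = B' := by
  have h : (A - B) * (A - B') = 0 := by
    have : A' = B + B' - A := by linarith
    rw [this] at h1
    linarith
  rcases mul_eq_zero.1 h with h | h
  · left; linarith
  · right; linarith

/-- The coefficients (up to the factor `w^k`) in terms of the products `x` and sums `y`. -/
lemma core (x1 x2 x3 y1 y2 y3 : ℝ) (hx1 : 0 < x1) (hx2 : 0 < x2) (hx3 : 0 < x3)
    (hy1 : 0 < y1)
    (h3 : (x1 - x2) * (y1 - y3) = (x1 - x3) * (y1 - y2))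
    (h2 : (x1 - x2) * (y1 / x1 - y3 / x3) - (x1 - x3) * (y1 / x1 - y2 / x2)
      + (y1 ^ 2 / x1 - y2 ^ 2 / x2) * (y1 - y3) - (y1 ^ 2 / x1 - y3 ^ 2 / x3) * (y1 - y2) = 0)
    (h1 : (y1 ^ 2 / x1 - y2 ^ 2 / x2) * (y1 / x1 - y3 / x3)
      - (y1 ^ 2 / x1 - y3 ^ 2 / x3) * (y1 / x1 - y2 / x2)
      + (1 / x1 - 1 / x2) * (y1 - y3) - (1 / x1 - 1 / x3) * (y1 - y2) = 0) :
    (x1 = x2 ∧ y1 = y2) ∨ (x1 = x3 ∧ y1 = y3) ∨ (x2 = x3 ∧ y2 = y3) ∨
    ∃ l : ℝ, l ≠ 0 ∧ y1 = l * x1 + 1 / l ∧ y2 = l * x2 + 1 / l ∧ y3 = l * x3 + 1 / l := by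
  by_cases e12 : x1 = x2
  · subst e12
    have h3' : (x1 - x3) * (y1 - y2) = 0 := by rw [← h3]; ring
    rcases mul_eq_zero.1 h3' with h | h
    · have e13 : x3 = x1 := by linarith
      subst e13
      have h2' : (y1 - y2) * ((y1 - y3) * (y2 - y3)) = 0 := by
        have hk : (y1 - y2) * ((y1 - y3) * (y2 - y3)) = x3 * ((x3 - x3) * (y1 / x3 - y3 / x3)
          - (x3 - x3) * (y1 / x3 - y2 / x3)
          + (y1 ^ 2 / x3 - y2 ^ 2 / x3) * (y1 - y3)
          - (y1 ^ 2 / x3 - y3 ^ 2 / x3) * (y1 - y2)) := by
          field_simp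
          ring
        rw [hk, h2, mul_zero]
      rcases mul_eq_zero.1 h2' with h | h
      · left; exact ⟨rfl, by linarith⟩
      rcases mul_eq_zero.1 h with h | h
      · right; left; exact ⟨rfl, by linarith⟩
      · right; right; left; exact ⟨rfl, by linarith⟩
    · left; exact ⟨rfl, by linarith⟩
  by_cases e13 : x1 = x3
  · subst e13
    have h3' : (x1 - x2) * (y1 - y3) = 0 := by rw [h3]; ring
    rcases mul_eq_zero.1 h3' with h | h
    · exact absurd (by linarith) e12
    · right; left; exact ⟨rfl, by linarith⟩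
  by_cases e23 : x2 = x3
  · subst e23
    have h3' : (x1 - x2) * (y2 - y3) = 0 := by linarith
    rcases mul_eq_zero.1 h3' with h | h
    · exact absurd (by linarith) e12
    · right; right; left; exact ⟨rfl, by linarith⟩
  -- three distinct abscissae
  right; right; right
  have d12 : x1 - x2 ≠ 0 := sub_ne_zero.2 e12
  have d13 : x1 - x3 ≠ 0 := sub_ne_zero.2 e13
  have d23 : x2 - x3 ≠ 0 := sub_ne_zero.2 e23
  set l : ℝ := (y1 - y2) / (x1 - x2) with hl
  set v : ℝ := y1 - l * x1 with hv
  have f1 : y1 = l * x1 + v := by rw [hv]; ring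
  have f2 : y2 = l * x2 + v := by
    have : y1 - y2 = l * (x1 - x2) := by rw [hl]; field_simp
    rw [hv]; linarith
  have f3 : y3 = l * x3 + v := by
    have h4 : (y1 - y3) = l * (x1 - x3) := by
      have h5 : (x1 - x2) * (y1 - y3) = (x1 - x2) * (l * (x1 - x3)) := by
        rw [h3, hl]; field_simp
      exact mul_left_cancel₀ d12 h5
    rw [hv]; linarith
  clear_value l v
  subst f1 f2 f3
  have k2 : v * (l * v - 1) = 0 := by
    have hk : v * (l * v - 1) * ((x1 - x2) * ((x1 - x3) * (x2 - x3))) = 0 := by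
      have h5 := congrArg (fun z => x1 * x2 * x3 * z) h2
      simp only [mul_zero] at h5
      field_simp at h5
      linear_combination h5
    rcases mul_eq_zero.1 hk with h | h
    · exact h
    · exact absurd h (mul_ne_zero d12 (mul_ne_zero d13 d23))
  have k1 : l * (1 - v * l) = 0 := by
    have hk : x1 * (l * (1 - v * l) * ((x1 - x2) * ((x1 - x3) * (x2 - x3)))) = 0 := by
      have h5 := congrArg (fun z => x1 * x2 * x3 * z) h1
      simp only [mul_zero] at h5
      field_simp at h5
      linear_combination h5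
    rcases mul_eq_zero.1 hk with h | h
    · exact absurd h hx1.ne'
    rcases mul_eq_zero.1 h with h | h
    · exact h
    · exact absurd h (mul_ne_zero d12 (mul_ne_zero d13 d23))
  have hlv : l * v = 1 := by
    rcases mul_eq_zero.1 k2 with h | h
    · subst h
      rcases mul_eq_zero.1 k1 with h | h
      · subst h
        simp at hy1
      · linarith
    · linarith
  have hl0 : l ≠ 0 := by
    intro h
    rw [h, zero_mul] at hlv
    exact zero_ne_one hlv
  have hvl : v = 1 / l := by field_simp; linarith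
  exact ⟨l, hl0, by rw [hvl], by rw [hvl], by rw [hvl]⟩

end Run7.h648.Nondeg
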