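import Pool.Agent.Run7.h648.FewDiff

set_option autoImplicit false

/-!
# A bound for the common part of six factorisations
-/

namespace Run7.h648.FewDiff

open Polynomial

/-- For three points in a box the collinearity determinant is at most the area of the box. -/
lemma det_box (x1 x2 x3 y1 y2 y3 V W α β : ℤ) (hx1 : α ≤ x1) (hx1' : x1 ≤ α + V)
    (hx2 : α ≤ x2) (hx2' : x2 ≤ α + V) (hx3 : α ≤ x3) (hx3' : x3 ≤ α + V)
    (hy1 : β ≤ y1) (hy1' : y1 ≤ β + W) (hy2 : β ≤ y2) (hy2' : y2 ≤ β + W)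
    (hy3 : β ≤ y3) (hy3' : y3 ≤ β + W) :
    |(x1 - x2) * (y1 - y3) - (x1 - x3) * (y1 - y2)| ≤ V * W := by
  obtain ⟨a1, rfl⟩ : ∃ a, x1 = α + a := ⟨x1 - α, by ring⟩
  obtain ⟨a2, rfl⟩ : ∃ a, x2 = α + a := ⟨x2 - α, by ring⟩
  obtain ⟨a3, rfl⟩ : ∃ a, x3 = α + a := ⟨x3 - α, by ring⟩
  obtain ⟨b1, rfl⟩ : ∃ a, y1 = β + a := ⟨y1 - β, by ring⟩
  obtain ⟨b2, rfl⟩ : ∃ a, y2 = β + a := ⟨y2 - β, by ring⟩
  obtain ⟨b3, rfl⟩ : ∃ a, y3 = β + a := ⟨y3 - β, by ring⟩
  have e : (α + a1 - (α + a2)) * (β + b1 - (β + b3)) - (α + a1 - (α + a3)) * (β + b1 - (β + b2))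
      = a1 * (b2 - b3) + a2 * (b3 - b1) + a3 * (b1 - b2) := by ring
  rw [e]
  have p1 : 0 ≤ a1 := by linarith
  have p2 : 0 ≤ a2 := by linarith
  have p3 : 0 ≤ a3 := by linarith
  have q1 : a1 ≤ V := by linarith
  have q2 : a2 ≤ V := by linarith
  have q3 : a3 ≤ V := by linarith
  have r1 : 0 ≤ b1 := by linarith
  have r2 : 0 ≤ b2 := by linarith
  have r3 : 0 ≤ b3 := by linarith
  have s1 : b1 ≤ W := by linarith
  have s2 : b2 ≤ W := by linarith
  have s3 : b3 ≤ W := by linarith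
  have hV : 0 ≤ V := p1.trans q1
  have key : ∀ u1 u2 u3 v1 v2 v3 : ℤ, 0 ≤ u1 → 0 ≤ u2 → 0 ≤ u3 → u1 ≤ V → u2 ≤ V → u3 ≤ V →
      0 ≤ v1 → 0 ≤ v2 → 0 ≤ v3 → v1 ≤ W → v2 ≤ W → v3 ≤ W →
      u1 * (v2 - v3) + u2 * (v3 - v1) + u3 * (v1 - v2) ≤ V * W := by
    intro u1 u2 u3 v1 v2 v3 hu1 hu2 hu3 gu1 gu2 gu3 hv1 hv2 hv3 gv1 gv2 gv3
    -- each summand is at most `V` times the positive part of its coefficient
    have hpos : ∀ u c : ℤ, 0 ≤ u → u ≤ V → u * c ≤ V * max c 0 := by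
      intro u c h1 h2
      rcases le_total c 0 with hc | hc
      · rw [max_eq_right hc, mul_zero]
        exact mul_nonpos_of_nonneg_of_nonpos h1 hc
      · rw [max_eq_left hc]
        exact mul_le_mul_of_nonneg_right h2 hc
    have h1 := hpos u1 (v2 - v3) hu1 gu1
    have h2 := hpos u2 (v3 - v1) hu2 gu2
    have h3 := hpos u3 (v1 - v2) hu3 gu3
    have h4 : max (v2 - v3) 0 + max (v3 - v1) 0 + max (v1 - v2) 0 ≤ W := by
      omega
    have h5 := mul_le_mul_of_nonneg_left h4 hV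
    linarith
  rw [abs_le]
  constructor
  · have := key a1 a3 a2 b1 b3 b2 p1 p3 p2 q1 q3 q2 r1 r3 r2 s1 s3 s2
    linarith
  · exact key a1 a2 a3 b1 b2 b3 p1 p2 p3 q1 q2 q3 r1 r2 r3 s1 s2 s3

lemma c0_c3 (R S : Fin 6 → ℤ) (w : ℤ) (hRS : ∀ k, R k * S k = w) :
    c0 S * (R 0 * R 1 * R 2 * R 3 * R 4 * R 5) = -(w ^ 3 * c3 R) := by
  have h0 := hRS 0
  have h1 := hRS 1
  have h2 := hRS 2
  have h3 := hRS 3
  have h4 := hRS 4
  have h5 := hRS 5
  have e : c0 S * (R 0 * R 1 * R 2 * R 3 * R 4 * R 5)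
      = ((R 0 * S 0) * (R 1 * S 1) * ((R 2 * S 2) * (R 3 * (R 4 * R 5)))
      + (R 0 * S 0) * (R 1 * S 1) * ((R 3 * S 3) * (R 2 * (R 4 * R 5)))
      - (R 0 * S 0) * (R 1 * S 1) * ((R 4 * S 4) * (R 5 * (R 2 * R 3)))
      - (R 0 * S 0) * (R 1 * S 1) * ((R 5 * S 5) * (R 4 * (R 2 * R 3)))
      + (R 2 * S 2) * (R 3 * S 3) * ((R 4 * S 4) * (R 5 * (R 0 * R 1)))
      + (R 2 * S 2) * (R 3 * S 3) * ((R 5 * S 5) * (R 4 * (R 0 * R 1)))
      - (R 2 * S 2) * (R 3 * S 3) * ((R 0 * S 0) * (R 1 * (R 4 * R 5)))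
      - (R 2 * S 2) * (R 3 * S 3) * ((R 1 * S 1) * (R 0 * (R 4 * R 5)))
      + (R 4 * S 4) * (R 5 * S 5) * ((R 0 * S 0) * (R 1 * (R 2 * R 3)))
      + (R 4 * S 4) * (R 5 * S 5) * ((R 1 * S 1) * (R 0 * (R 2 * R 3)))
      - (R 4 * S 4) * (R 5 * S 5) * ((R 2 * S 2) * (R 3 * (R 0 * R 1)))
      - (R 4 * S 4) * (R 5 * S 5) * ((R 3 * S 3) * (R 2 * (R 0 * R 1)))) := by
    unfold c0
    ring
  rw [e, h0, h1, h2, h3, h4, h5]
  unfold c3
  ring

/-- A positive root `T` of the cubic which divides is at most `4 w³`, where `w = R k * S k`. -/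
lemma root_bound (R S : Fin 6 → ℤ) (w T : ℤ) (hR : ∀ k, 0 < R k) (hS : ∀ k, 0 < S k)
    (hRS : ∀ k, R k * S k = w) (hT : 0 < T) (hne : cub R S ≠ 0) (hroot : (cub R S).IsRoot T) :
    T ≤ 4 * w ^ 3 := by
  have hRw : ∀ k, R k ≤ w := fun k => by
    have h1 := hS k
    have h2 := hR k
    have h3 := hRS k
    nlinarith
  have hSw : ∀ k, S k ≤ w := fun k => by
    have h1 := hS k
    have h2 := hR k
    have h3 := hRS k
    nlinarith
  have hw1 : 1 ≤ w := by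
    have h1 := hRw 0
    have h2 := hR 0
    linarith
  have heq : c3 R * T ^ 3 + c2 R S * T ^ 2 + c1 R S * T + c0 S = 0 := by
    have h := hroot
    rw [IsRoot.def, cub] at h
    simpa only [eval_add, eval_mul, eval_C, eval_pow, eval_X] using h
  -- products of two entries
  have hprodS : ∀ k l, 1 ≤ S k * S l ∧ S k * S l ≤ w ^ 2 := by
    intro k l
    constructor
    · have := mul_pos (hS k) (hS l); linarith
    · rw [sq]
      exact mul_le_mul (hSw k) (hSw l) (hS l).le (by linarith)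
  have hsumS : ∀ k l, 2 ≤ S k + S l ∧ S k + S l ≤ 2 * w := by
    intro k l
    have h1 := hS k
    have h2 := hS l
    have h3 := hSw k
    have h4 := hSw l
    constructor <;> linarith
  have hsumR : ∀ k l, 2 ≤ R k + R l ∧ R k + R l ≤ 2 * w := by
    intro k l
    have h1 := hR k
    have h2 := hR l
    have h3 := hRw k
    have h4 := hRw l
    constructor <;> linarith
  have hmix : ∀ k l, 2 * w ≤ R k * S l + R l * S k ∧ R k * S l + R l * S k ≤ w ^ 2 + 1 := by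
    intro k l
    have h1 : 0 < R k * S l := mul_pos (hR k) (hS l)
    have h2 : 0 < R l * S k := mul_pos (hR l) (hS k)
    have h3 : (R k * S l) * (R l * S k) = w ^ 2 := by
      have : (R k * S l) * (R l * S k) = (R k * S k) * (R l * S l) := by ring
      rw [this, hRS, hRS]; ring
    constructor
    · have h4 : 0 ≤ (R k * S l - R l * S k) ^ 2 := sq_nonneg _
      have h5 : (2 * w) ^ 2 ≤ (R k * S l + R l * S k) ^ 2 := by
        nlinarith
      exact (pow_le_pow_iff_left₀ (by linarith) (by linarith) (by norm_num)).1 h5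
    · have h4 : 0 ≤ (R k * S l - 1) * (R l * S k - 1) :=
        mul_nonneg (by linarith) (by linarith)
      nlinarith
  have b0 : |c0 S| ≤ 2 * w ^ 3 := by
    have h := det_box (S 0 * S 1) (S 2 * S 3) (S 4 * S 5) (S 0 + S 1) (S 2 + S 3) (S 4 + S 5)
      (w ^ 2) (2 * w) 0 0 (by linarith [(hprodS 0 1).1]) (by linarith [(hprodS 0 1).2])
      (by linarith [(hprodS 2 3).1]) (by linarith [(hprodS 2 3).2])
      (by linarith [(hprodS 4 5).1]) (by linarith [(hprodS 4 5).2])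
      (by linarith [(hsumS 0 1).1]) (by linarith [(hsumS 0 1).2])
      (by linarith [(hsumS 2 3).1]) (by linarith [(hsumS 2 3).2])
      (by linarith [(hsumS 4 5).1]) (by linarith [(hsumS 4 5).2])
    unfold c0
    calc _ ≤ w ^ 2 * (2 * w) := h
      _ = 2 * w ^ 3 := by ring
  have b1 : |c1 R S| ≤ 4 * w ^ 3 := by
    have h := det_box (R 0 * S 1 + R 1 * S 0) (R 2 * S 3 + R 3 * S 2) (R 4 * S 5 + R 5 * S 4)
      (S 0 + S 1) (S 2 + S 3) (S 4 + S 5)
      ((w - 1) ^ 2) (2 * w) (2 * w) 0 (hmix 0 1).1 (by linarith [(hmix 0 1).2])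
      (hmix 2 3).1 (by linarith [(hmix 2 3).2])
      (hmix 4 5).1 (by linarith [(hmix 4 5).2])
      (by linarith [(hsumS 0 1).1]) (by linarith [(hsumS 0 1).2])
      (by linarith [(hsumS 2 3).1]) (by linarith [(hsumS 2 3).2])
      (by linarith [(hsumS 4 5).1]) (by linarith [(hsumS 4 5).2])
    have h' := det_box (S 0 * S 1) (S 2 * S 3) (S 4 * S 5) (R 0 + R 1) (R 2 + R 3) (R 4 + R 5)
      (w ^ 2) (2 * w) 0 0 (by linarith [(hprodS 0 1).1]) (by linarith [(hprodS 0 1).2])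
      (by linarith [(hprodS 2 3).1]) (by linarith [(hprodS 2 3).2])
      (by linarith [(hprodS 4 5).1]) (by linarith [(hprodS 4 5).2])
      (by linarith [(hsumR 0 1).1]) (by linarith [(hsumR 0 1).2])
      (by linarith [(hsumR 2 3).1]) (by linarith [(hsumR 2 3).2])
      (by linarith [(hsumR 4 5).1]) (by linarith [(hsumR 4 5).2])
    have e : c1 R S = (((R 0 * S 1 + R 1 * S 0) - (R 2 * S 3 + R 3 * S 2))
        * ((S 0 + S 1) - (S 4 + S 5))
        - ((R 0 * S 1 + R 1 * S 0) - (R 4 * S 5 + R 5 * S 4)) * ((S 0 + S 1) - (S 2 + S 3)))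
        + ((S 0 * S 1 - S 2 * S 3) * ((R 0 + R 1) - (R 4 + R 5))
        - (S 0 * S 1 - S 4 * S 5) * ((R 0 + R 1) - (R 2 + R 3))) := by
      unfold c1; ring
    rw [e]
    refine (abs_add_le _ _).trans ((add_le_add h h').trans ?_)
    have hw3 : (w - 1) ^ 2 * (2 * w) ≤ w ^ 2 * (2 * w) := by
      refine mul_le_mul_of_nonneg_right ?_ (by linarith)
      nlinarith
    calc _ ≤ w ^ 2 * (2 * w) + w ^ 2 * (2 * w) := by linarith
      _ = 4 * w ^ 3 := by ring
  have hw3 : (0 : ℤ) < w ^ 3 := by positivity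
  by_cases h0 : c0 S = 0
  · have h3 : c3 R = 0 := by
      have h := c0_c3 R S w hRS
      rw [h0, zero_mul] at h
      have h' : w ^ 3 * c3 R = 0 := by linarith
      rcases mul_eq_zero.1 h' with h'' | h''
      · exact absurd h'' hw3.ne'
      · exact h''
    rw [h0, h3] at heq
    have heq' : T * (c2 R S * T + c1 R S) = 0 := by linarith
    have heq'' : c2 R S * T + c1 R S = 0 := by
      rcases mul_eq_zero.1 heq' with h | h
      · exact absurd h hT.ne'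
      · exact h
    have hc1 : c1 R S ≠ 0 := by
      intro h1
      rw [h1, add_zero] at heq''
      have h2 : c2 R S = 0 := by
        rcases mul_eq_zero.1 heq'' with h | h
        · exact h
        · exact absurd h hT.ne'
      apply hne
      rw [cub, h0, h1, h2, h3]
      simp
    have hdvd : T ∣ c1 R S := ⟨-c2 R S, by linarith⟩
    have := Int.le_of_dvd (abs_pos.2 hc1) ((dvd_abs _ _).2 hdvd)
    linarith
  · have hdvd : T ∣ c0 S := ⟨-(c3 R * T ^ 2 + c2 R S * T + c1 R S), by linarith⟩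
    have := Int.le_of_dvd (abs_pos.2 h0) ((dvd_abs _ _).2 hdvd)
    linarith

/-- If `P` divides one of the two factors in each of the six factorisations, then `P ≤ 2 M³`,
`N = P M`. -/
lemma common_bound (N : ℕ) (hN : N ≠ 0) (a b c d s : ℤ) (ha : a ≠ 0) (hb : b ≠ 0)
    (hc : c ≠ 0) (hd : d ≠ 0) (hab : a ≠ b) (hac : a ≠ c) (had : a ≠ d) (hbc : b ≠ c)
    (hbd : b ≠ d) (hcd : c ≠ d) (δ : Fin 6 → ℕ) (hδ : ∀ k, δ k ∣ N)
    (h0 : (δ 0 : ℤ) ^ 2 + ((N / δ 0 : ℕ) : ℤ) ^ 2 = 4 * (a * b) + s)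
    (h1 : (δ 1 : ℤ) ^ 2 + ((N / δ 1 : ℕ) : ℤ) ^ 2 = 4 * (c * d) + s)
    (h2 : (δ 2 : ℤ) ^ 2 + ((N / δ 2 : ℕ) : ℤ) ^ 2 = 4 * (a * c) + s)
    (h3 : (δ 3 : ℤ) ^ 2 + ((N / δ 3 : ℕ) : ℤ) ^ 2 = 4 * (b * d) + s)
    (h4 : (δ 4 : ℤ) ^ 2 + ((N / δ 4 : ℕ) : ℤ) ^ 2 = 4 * (a * d) + s)
    (h5 : (δ 5 : ℤ) ^ 2 + ((N / δ 5 : ℕ) : ℤ) ^ 2 = 4 * (b * c) + s)
    (P : ℕ) (hPN : P ∣ N) (hPdiv : ∀ k, P ∣ δ k ∨ P ∣ N / δ k) : P ≤ 2 * (N / P) ^ 3 := by
  classical
  choose r hrM hr using fun k => G_form N (δ k) P hN (hδ k) hPN (hPdiv k)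
  obtain ⟨M, hM⟩ := hPN
  have hP0 : 0 < P := Nat.pos_of_ne_zero fun h => hN (by rw [hM, h, zero_mul])
  have hM0 : 0 < M := Nat.pos_of_ne_zero fun h => hN (by rw [hM, h, mul_zero])
  have e2 : N / P = M := by rw [hM]; exact Nat.mul_div_cancel_left _ hP0
  rw [e2] at hrM hr ⊢
  have hr0 : ∀ k, 0 < r k := fun k => Nat.pos_of_dvd_of_pos (hrM k) hM0
  have hs0 : ∀ k, 0 < M / r k := fun k => Nat.div_pos (Nat.le_of_dvd hM0 (hrM k)) (hr0 k)
  set R : Fin 6 → ℤ := fun k => (r k : ℤ) ^ 2 with hR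
  set S : Fin 6 → ℤ := fun k => ((M / r k : ℕ) : ℤ) ^ 2 with hS
  have hG : ∀ k, (δ k : ℤ) ^ 2 + ((N / δ k : ℕ) : ℤ) ^ 2 = R k * (P : ℤ) ^ 2 + S k :=
    fun k => hr k
  have hRS : ∀ k, R k * S k = (M : ℤ) ^ 2 := by
    intro k
    have h6 : r k * (M / r k) = M := Nat.mul_div_cancel' (hrM k)
    simp only [hR, hS]
    rw [← mul_pow, ← Nat.cast_mul, h6]
  have hRinj : ∀ k l, R k = R l → R k * (P : ℤ) ^ 2 + S k = R l * (P : ℤ) ^ 2 + S l := by
    intro k l hkl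
    have h6 : (r k : ℤ) = r l := by
      have h7 : ((r k : ℤ)) ^ 2 = (r l : ℤ) ^ 2 := hkl
      exact (pow_left_inj₀ (by positivity) (by positivity) (by norm_num)).1 h7
    have h8 : r k = r l := by exact_mod_cast h6
    simp only [hR, hS, h8]
  have hdet : det (fun k => R k * (P : ℤ) ^ 2 + S k) = 0 := by
    apply det_zero a b c d s
    · rw [← h0]; exact (hG 0).symm
    · rw [← h1]; exact (hG 1).symm
    · rw [← h2]; exact (hG 2).symm
    · rw [← h3]; exact (hG 3).symm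
    · rw [← h4]; exact (hG 4).symm
    · rw [← h5]; exact (hG 5).symm
  have hroot : (cub R S).IsRoot ((P : ℤ) ^ 2) := by
    rw [IsRoot.def, cub_eval]
    exact hdet
  have g0 := (hG 0).symm.trans h0
  have g1 := (hG 1).symm.trans h1
  have g2 := (hG 2).symm.trans h2
  have g3 := (hG 3).symm.trans h3
  have g4 := (hG 4).symm.trans h4
  have g5 := (hG 5).symm.trans h5
  have cancel : ∀ x y z : ℤ, x ≠ 0 → y ≠ z → 4 * (x * y) + s = 4 * (x * z) + s → False := by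
    intro x y z hx hyz h
    have : x * (y - z) = 0 := by linarith
    rcases mul_eq_zero.1 this with h' | h'
    · exact hx h'
    · exact hyz (by linarith)
  have hRpos : ∀ k, 0 < R k := fun k => by
    have := hr0 k
    simp only [hR]
    positivity
  have hSpos : ∀ k, 0 < S k := fun k => by
    have := hs0 k
    simp only [hS]
    positivity
  have hne : cub R S ≠ 0 := by
    apply cub_ne_zero R S ((M : ℤ) ^ 2) hRpos (by positivity) hRS
    · intro h
      have h6 := hRinj 0 2 h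
      rw [g0, g2] at h6
      exact cancel a b c ha hbc h6
    · intro h
      have h6 := hRinj 0 3 h
      rw [g0, g3] at h6
      exact cancel b a d hb had (by linarith)
    · intro h
      have h6 := hRinj 0 4 h
      rw [g0, g4] at h6
      exact cancel a b d ha hbd h6
    · intro h
      have h6 := hRinj 0 5 h
      rw [g0, g5] at h6
      exact cancel b a c hb hac (by linarith)
    · intro h
      have h6 := hRinj 1 2 h
      rw [g1, g2] at h6
      exact cancel c d a hc (Ne.symm had) (by linarith)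
    · intro h
      have h6 := hRinj 1 3 h
      rw [g1, g3] at h6
      exact cancel d c b hd (Ne.symm hbc) (by linarith)
    · intro h
      have h6 := hRinj 2 4 h
      rw [g2, g4] at h6
      exact cancel a c d ha hcd h6
    · intro h
      have h6 := hRinj 2 5 h
      rw [g2, g5] at h6
      exact cancel c a b hc hab (by linarith)
  have hbound := root_bound R S ((M : ℤ) ^ 2) ((P : ℤ) ^ 2) hRpos hSpos hRS (by positivity)
    hne hroot
  have h6 : ((P : ℤ)) ^ 2 ≤ (2 * (M : ℤ) ^ 3) ^ 2 := by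
    calc ((P : ℤ)) ^ 2 ≤ 4 * ((M : ℤ) ^ 2) ^ 3 := hbound
      _ = (2 * (M : ℤ) ^ 3) ^ 2 := by ring
  have h7 : (P : ℤ) ≤ 2 * (M : ℤ) ^ 3 :=
    (pow_le_pow_iff_left₀ (by positivity) (by positivity) (by norm_num)).1 h6
  exact_mod_cast h7

end Run7.h648.FewDiff
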